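import Pool.Agent.H560.SI.Top

/-!
# The Möbius function in every interval of exponent above `1 / 4`, over `F_q[X]`, `q` even
-/

namespace Pool.Agent.Results.MP_0575cc_nt.EveryIntervalExponentQuarter

open Polynomial

open Classical in
/-- The Möbius function of `K[X]`. -/
noncomputable def mu {K : Type} [Field K] (f : K[X]) : ℤ :=
  if Squarefree f then (-1) ^ Multiset.card (UniqueFactorizationMonoid.factors f) else 0

/-- The interval of the `f` with `deg (f - g) < h`. -/
def Int {K : Type} [Field K] (g : K[X]) (h : ℕ) : Set K[X] :=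
  {f | (f - g).degree < (h : WithBot ℕ)}

/-- Let `K` be a finite field with an even number `q` of elements and `θ > 1/4`. There is `c > 0`
such that for all large `n`, all `h` with `θ n ≤ h ≤ n` and every monic `g` of degree `n`, in the
interval of the `q ^ h` polynomials `f` with `deg (f - g) < h` each of the values `1` and `-1` of
the Möbius function is taken at least `c q ^ h` times, and the absolute value of the sum of the
Möbius function is at most the number of the squarefree `f` minus `c q ^ h`. -/
theorem result (K : Type) [Field K] [Fintype K] [CharP K 2] (θ : ℝ) (hθ : 1 / 4 < θ) :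
    ∃ c : ℝ, 0 < c ∧ ∃ n₀ : ℕ, ∀ n : ℕ, n₀ ≤ n → ∀ h : ℕ, θ * n ≤ (h : ℝ) → h ≤ n →
      ∀ g : K[X], g.Monic → g.natDegree = n →
        c * (Fintype.card K : ℝ) ^ h ≤ {f ∈ Int g h | mu f = 1}.ncard ∧
        c * (Fintype.card K : ℝ) ^ h ≤ {f ∈ Int g h | mu f = -1}.ncard ∧
        |∑ᶠ f ∈ Int g h, (mu f : ℝ)| ≤
          {f ∈ Int g h | Squarefree f}.ncard - c * (Fintype.card K : ℝ) ^ h :=
  Pool.Agent.H560.SI.signs_top K θ hθ

end Pool.Agent.Results.MP_0575cc_nt.EveryIntervalExponentQuarter
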