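import Pool.Agent.H101.HB.Main

/-!
# The Good-Churchhouse variance: unconditional lower bound with half the conjectured constant

Let `V(X; H) = (1/X) ∫_X^{2X} |M(x; H)|² dx`, `M(x; H)` the sum of `μ(n)` over `|n - x| < H/2`. The
conjecture says `V(X; H) ∼ (6/π²) H` for `X^ε < H < X^(1-ε)`.

We show, without any hypothesis: for every `ε > 0` there are `α > 0` and `T₀` such that for all `T ≥ T₀`:

* for all `0 < δ ≤ α / log T` the mean of `V(X; X/T) / (X/T)` over `X > T` with the weight
  `2 δ X^(-2δ) dX / X` (which has total mass close to `1`) is at least `(1/2 - ε) (6/π²)`; it may be infinite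
  (this happens if the Riemann hypothesis is false);
* in particular the logarithmic means `(1 / log Y) ∫_T^Y V(X; X/T) / (X/T) dX / X` are at least
  `(1/2 - ε) (6/π²)` for arbitrarily large `Y`.

Here the weights live on `X = T^x`, `x ≈ 1 / (δ log T)`, so that `H = X/T = X^(1 - 1/x)`.

The proof is an unconditional form of the argument of Milinovich and Ng for the sum of `1/|ζ'(ρ)|²`
(lower bound with half of the conjectured constant, under the Riemann hypothesis and simplicity of the zeros):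
if the mean is finite, then `ζ` has no zero in `Re s > 1/2 + δ` and the mean is a mean square of `1/ζ` on the line
`Re s = 1/2 + δ` (Mellin-Plancherel); by Cauchy-Schwarz it is bounded below by testing against `A(s) (1 - b(s))`, where
`A(s) = ∑_{n ≤ T^(1-ε)} μ(n) n^(-s)` and `b(s) = ξ(s - 2δ) / ξ(s)` has modulus one on the line; no zero of zeta appears. The
scalar product with `A b` is small by the functional equation, and the norm of `A (1 - b)` is evaluated with
the Dirichlet series of `ζ(s - 2δ)/ζ(s)` and `1 - ∏_{p ∣ m} (2 - p^(2δ)) ≤ ∑_{p ∣ m} (p^(2δ) - 1)`.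

Pieces of the formal proof by helpers 27, 120, 153, 287, 353, 388, 484, 675, 757, 972 and, from an earlier run, 763 and others
(`Pool/Graph/R_pool_sql_team_seeded_1acbe0a2/Y763/HB`); plan and assembly by helper101.
-/

set_option autoImplicit false

open MeasureTheory Filter Set

namespace Pool.Agent.Results.MP_0575cc_nt.HalfConstant

/-- `M(x; H)`, the sum of `μ(n)` over the `n ≥ 1` with `|n - x| < H / 2` (the term `n = 0` is `0`) -/
noncomputable def M (x H : ℝ) : ℝ :=
  ∑ n ∈ (Finset.range (⌈x + H⌉₊ + 1)).filter (fun n : ℕ => |(n : ℝ) - x| < H / 2),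
    ((ArithmeticFunction.moebius n : ℤ) : ℝ)

/-- `V(X; H)`, the mean of `M(x; H)²` over `X ≤ x ≤ 2X` -/
noncomputable def V (X H : ℝ) : ℝ := (1 / X) * ∫ x in X..2 * X, M x H ^ 2

/-- For every `ε > 0` there are `α > 0` and `T₀` such that for all `T ≥ T₀`: (1) for all `δ > 0` with `δ log T ≤ α`
the weighted mean `2 δ ∫_T^∞ V(X; X/T) / (X/T) X^(-2δ) dX / X` (a lower integral, possibly infinite) is at least
`(1/2 - ε) (6/π²)`; (2) for arbitrarily large `Y` the logarithmic mean
`(1 / log Y) ∫_T^Y V(X; X/T) / (X/T) dX / X` is at least `(1/2 - ε) (6/π²)`. -/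
theorem result (ε : ℝ) (hε : 0 < ε) : ∃ α T₀ : ℝ, 0 < α ∧ 3 ≤ T₀ ∧ ∀ T : ℝ, T₀ ≤ T →
    (∀ δ : ℝ, 0 < δ → δ * Real.log T ≤ α →
      ENNReal.ofReal ((1 / 2 - ε) * (6 / Real.pi ^ 2)) ≤ ENNReal.ofReal (2 * δ) *
        ∫⁻ X in Ioi T, ENNReal.ofReal (V X (X / T) / (X / T) * X ^ (-(2 * δ) - 1))) ∧
    (∃ᶠ Y : ℝ in atTop, (1 / 2 - ε) * (6 / Real.pi ^ 2) * Real.log Y ≤
      ∫ X in T..Y, V X (X / T) / (X / T) / X) :=
  Pool.Agent.H101.HB.main ε hε

end Pool.Agent.Results.MP_0575cc_nt.HalfConstant
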