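import Pool.Agent.H611.ST.Thin

set_option autoImplicit false

/-!
# The Good-Churchhouse conjecture under changes of the signs at a thin set of primes: the threshold `1/2`

For almost every completely multiplicative twist `μ χ` of the Moebius function the variance law of Good and
Churchhouse (uniformly for `1 ≤ H ≤ X ^ (1 - ε)`, with a power saving) survives ARBITRARY changes of the signs
`χ(p)` at the primes `p` of any set `Q` with `∑ q ^ (-s) < ∞` for some `s < 1/2`; no randomness is needed at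
the primes of `Q`, and the exceptional null set depends only on `Q`. The exponent `1/2` is sharp: there is a
set `Q` of primes with `∑ q ^ (-s) < ∞` for all `s > 1/2` such that EVERY twist `μ χ`, in particular `μ`
itself, can be changed at the primes of `Q` so that the law fails, `V(X;X^(3/4)) / X^(3/4)` being unbounded.
-/

namespace Pool.Agent.Results.MP_0575cc_nt.SharpStability

open Finset Filter Topology MeasureTheory Pool.Agent.Q163.RP Pool.Agent.Q163.RX Pool.Agent.Q163.GC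
  Pool.Agent.H611.ST

/-- the completely multiplicative function with the value `1` or `-1` at the prime `p` according to `ω p` -/
noncomputable def chi (ω : ℕ → Bool) (n : ℕ) : ℝ :=
  ∏ p ∈ n.primeFactors, (if ω p = true then 1 else -1) ^ n.factorization p

/-- the Moebius function -/
noncomputable def moeb (n : ℕ) : ℝ := ((ArithmeticFunction.moebius n : ℤ) : ℝ)

/-- the sum of `f` over the integers `n ≥ 0` with `|n - x| < H / 2` -/
noncomputable def M (f : ℕ → ℝ) (x H : ℝ) : ℝ :=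
  ∑ n ∈ (Finset.range (⌈x + H⌉₊ + 1)).filter (fun n : ℕ => |(n : ℝ) - x| < H / 2), f n

/-- the mean square `V(X;H)` -/
noncomputable def V (f : ℕ → ℝ) (X H : ℝ) : ℝ := 1 / X * ∫ x in X..2 * X, M f x H ^ 2

/-- the law with a power saving, uniformly for `1 ≤ H ≤ X ^ (1 - ε)` -/
def StrongLaw (f : ℕ → ℝ) : Prop :=
  ∀ ε : ℝ, 0 < ε → ∃ c : ℝ, 0 < c ∧ ∃ X₀ : ℝ, 1 ≤ X₀ ∧ ∀ X H : ℝ, X₀ ≤ X → 1 ≤ H → H ≤ X ^ (1 - ε) →
    |V f X H - 6 / Real.pi ^ 2 * H| ≤ H * X ^ (-c)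

/-- the statement of the problem with `f` in place of the Moebius function -/
def Law (f : ℕ → ℝ) : Prop :=
  ∀ ε : ℝ, 0 < ε → ∀ H : ℝ → ℝ, (∀ᶠ X in atTop, X ^ ε < H X ∧ H X < X ^ (1 - ε)) →
    Tendsto (fun X => V f X (H X) / (H X / (Real.pi ^ 2 / 6))) atTop (𝓝 1)

/-- the product measure of fair coins, one for each natural number -/
noncomputable def coins : Measure (ℕ → Bool) :=
  Measure.infinitePi fun _ : ℕ => (PMF.bernoulli (1 / 2) (by norm_num)).toMeasure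

/-- the signs `ω'` are the signs `ω` at the primes outside `Q` -/
def SameOff (Q : Set ℕ) (ω ω' : ℕ → Bool) : Prop := ∀ p : ℕ, p.Prime → p ∉ Q → ω' p = ω p

lemma ch_eq (ω : ℕ → Bool) (n : ℕ) : ch ω n = chi ω n := by
  unfold ch chi mult sg es sgn
  refine Finset.prod_congr rfl fun p _ => ?_
  rw [if_pos (Set.mem_univ p)]

lemma kappa_le : 6 / Real.pi ^ 2 ≤ 1 := by
  have := Real.pi_gt_three
  rw [div_le_one (by positivity)]
  nlinarith

lemma fe (ω : ℕ → Bool) : (fun n => moeb n * chi ω n) = fun n => Pool.Agent.Y293.SF.mu n * ch ω n := by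
  funext n
  rw [ch_eq]
  rfl

/-- the stability -/
theorem stable (Q : Set ℕ) (s : ℝ) (hs : s < 1 / 2)
    (hQ : Summable fun q : Q => ((q : ℕ) : ℝ) ^ (-s)) : ∀ᵐ ω ∂cm, ∀ ω' : ℕ → Bool, SameOff Q ω ω' →
    StrongLaw fun n => moeb n * chi ω' n := by
  filter_upwards [windows_all Q s hs hQ] with ω hω ω' hω'
  rw [fe]
  have hω1 := hω ω' fun p hp hne => by
    by_contra hc
    exact hne (hω' p hp hc)
  refine var_real _ (6 / Real.pi ^ 2) (by positivity) kappa_le fun ε hε => ?_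
  obtain ⟨c0, C0, hc0, hC0, h0⟩ := hω1 (min ε (1 / 2)) (lt_min hε (by norm_num))
  refine ⟨min c0 (1 / 2), C0 + 20, lt_min hc0 (by norm_num), by positivity, fun N h hN hh => ?_⟩
  have hNR : (1 : ℝ) ≤ N := by exact_mod_cast hN
  have hN0 : (0 : ℝ) < N := by linarith
  have h1 := h0 N h hN (hh.trans (Real.rpow_le_rpow_of_exponent_le hNR
    (by linarith [min_le_left ε (1 / 2)])))
  have h2 := DD_mu N h
  have hhN : (h : ℝ) ≤ N := by
    calc (h : ℝ) ≤ (N : ℝ) ^ (1 - ε) := hh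
      _ ≤ (N : ℝ) ^ (1 : ℝ) := Real.rpow_le_rpow_of_exponent_le hNR (by linarith)
      _ = N := Real.rpow_one _
  have h3 : Real.sqrt (N + h) ≤ 2 * (N * (N : ℝ) ^ (-(min c0 (1 / 2)))) := by
    have e1 : Real.sqrt (N + h) ≤ Real.sqrt (4 * N) := Real.sqrt_le_sqrt (by linarith)
    have e2 : Real.sqrt (4 * N) = 2 * Real.sqrt N := by
      rw [Real.sqrt_mul (by norm_num), show (4 : ℝ) = 2 ^ 2 by norm_num, Real.sqrt_sq (by norm_num)]
    have e3 : Real.sqrt N ≤ N * (N : ℝ) ^ (-(min c0 (1 / 2))) := by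
      have e4 : (N : ℝ) * (N : ℝ) ^ (-(min c0 (1 / 2))) = (N : ℝ) ^ (1 - min c0 (1 / 2)) := by
        rw [sub_eq_add_neg, Real.rpow_add hN0, Real.rpow_one]
      rw [e4, Real.sqrt_eq_rpow]
      exact Real.rpow_le_rpow_of_exponent_le hNR (by linarith [min_le_right c0 (1 / 2)])
    linarith
  have h4 : (N : ℝ) ^ (-c0) ≤ (N : ℝ) ^ (-(min c0 (1 / 2))) :=
    Real.rpow_le_rpow_of_exponent_le hNR (neg_le_neg (min_le_left _ _))
  have h5 : |BB (fun n => Pool.Agent.Y293.SF.mu n * ch ω' n) N h - 6 / Real.pi ^ 2 * (h * N)| ≤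
      C0 * (h * N) * (N : ℝ) ^ (-c0) + 10 * (h * Real.sqrt (N + h)) := by
    have e1 : BB (fun n => Pool.Agent.Y293.SF.mu n * ch ω' n) N h - 6 / Real.pi ^ 2 * (h * N) =
        (BB (fun n => Pool.Agent.Y293.SF.mu n * ch ω' n) N h - DD Pool.Agent.Y293.SF.mu N h) +
        (DD Pool.Agent.Y293.SF.mu N h - 6 / Real.pi ^ 2 * (h * N)) := by ring
    rw [e1]
    exact (abs_add_le _ _).trans (add_le_add h1 h2)
  refine h5.trans ?_
  have hh0 : (0 : ℝ) ≤ h := Nat.cast_nonneg _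
  calc C0 * (h * N) * (N : ℝ) ^ (-c0) + 10 * (h * Real.sqrt (N + h))
      ≤ C0 * (h * N) * (N : ℝ) ^ (-(min c0 (1 / 2))) +
        10 * (h * (2 * (N * (N : ℝ) ^ (-(min c0 (1 / 2)))))) := by
        refine add_le_add (mul_le_mul_of_nonneg_left h4 (by positivity)) ?_
        exact mul_le_mul_of_nonneg_left (mul_le_mul_of_nonneg_left h3 hh0) (by norm_num)
    _ = (C0 + 20) * (h * N) * (N : ℝ) ^ (-(min c0 (1 / 2))) := by ring

/-- the strong law implies the law -/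
theorem law_of_strong (f : ℕ → ℝ) (hf : StrongLaw f) : Law f := by
  intro ε hε H hH
  obtain ⟨c, hc, X0, hX0, h1⟩ := hf ε hε
  have h2 : Tendsto (fun X : ℝ => Real.pi ^ 2 / 6 * X ^ (-c)) atTop (𝓝 0) := by
    have := (tendsto_rpow_neg_atTop hc).const_mul (Real.pi ^ 2 / 6)
    rwa [mul_zero] at this
  rw [tendsto_iff_norm_sub_tendsto_zero]
  refine squeeze_zero' (Eventually.of_forall fun _ => norm_nonneg _) ?_ h2
  have hXe : ∀ᶠ X : ℝ in atTop, 1 ≤ X ^ ε := (tendsto_rpow_atTop hε).eventually_ge_atTop 1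
  filter_upwards [hH, eventually_ge_atTop X0, hXe] with X hX hXX hX1
  have hH1 : 1 ≤ H X := hX1.trans hX.1.le
  have hH0 : 0 < H X := by linarith
  have h3 := h1 X (H X) hXX hH1 hX.2.le
  have hpi : 0 < Real.pi ^ 2 / 6 := by positivity
  have e1 : V f X (H X) / (H X / (Real.pi ^ 2 / 6)) - 1 =
      (Real.pi ^ 2 / 6) / H X * (V f X (H X) - 6 / Real.pi ^ 2 * H X) := by
    have : Real.pi ≠ 0 := Real.pi_ne_zero
    field_simp
  rw [e1, Real.norm_eq_abs, abs_mul, abs_of_pos (by positivity : 0 < (Real.pi ^ 2 / 6) / H X)]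
  calc (Real.pi ^ 2 / 6) / H X * |V f X (H X) - 6 / Real.pi ^ 2 * H X|
      ≤ (Real.pi ^ 2 / 6) / H X * (H X * X ^ (-c)) :=
        mul_le_mul_of_nonneg_left h3 (by positivity)
    _ = Real.pi ^ 2 / 6 * X ^ (-c) := by
        field_simp

/-- an unbounded ratio contradicts the law -/
theorem not_law (f : ℕ → ℝ)
    (hf : ∀ C X₀ : ℝ, ∃ X : ℝ, X₀ ≤ X ∧ C * X ^ (3 / 4 : ℝ) ≤ V f X (X ^ (3 / 4 : ℝ))) : ¬ Law f := by
  intro hL
  have h1 := hL (1 / 5) (by norm_num) (fun X => X ^ (3 / 4 : ℝ)) (by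
    filter_upwards [eventually_gt_atTop (1 : ℝ)] with X hX
    exact ⟨Real.rpow_lt_rpow_of_exponent_lt hX (by norm_num),
      Real.rpow_lt_rpow_of_exponent_lt hX (by norm_num)⟩)
  have h2 := (h1.eventually (gt_mem_nhds (by norm_num : (1 : ℝ) < 2))).and (eventually_gt_atTop (1 : ℝ))
  obtain ⟨X1, hX1⟩ := eventually_atTop.1 h2
  obtain ⟨X, hX, hV⟩ := hf 2 X1
  obtain ⟨h3, h4⟩ := hX1 X hX
  have hH0 : 0 < X ^ (3 / 4 : ℝ) := by positivity
  have hpi := Real.pi_gt_three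
  rw [div_lt_iff₀ (by positivity)] at h3
  have h5 : X ^ (3 / 4 : ℝ) / (Real.pi ^ 2 / 6) ≤ X ^ (3 / 4 : ℝ) :=
    div_le_self hH0.le (by nlinarith)
  linarith

/-- the destruction -/
theorem destroyed : ∃ Q : Set ℕ, (∀ q ∈ Q, q.Prime) ∧
    (∀ s : ℝ, 1 / 2 < s → Summable fun q : Q => ((q : ℕ) : ℝ) ^ (-s)) ∧
    ∀ ω : ℕ → Bool, ∃ ω' : ℕ → Bool, SameOff Q ω ω' ∧
      ∀ C X₀ : ℝ, ∃ X : ℝ, X₀ ≤ X ∧
        C * X ^ (3 / 4 : ℝ) ≤ V (fun n => moeb n * chi ω' n) X (X ^ (3 / 4 : ℝ)) := by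
  obtain ⟨τ, P, Qs, hsc, hgap, hlow⟩ := exists_scales
  refine ⟨{q | ∃ k, q ∈ Qs k}, ?_, fun s hs => thin hsc hgap s hs _ fun q hq => hq, fun ω => ?_⟩
  · rintro q ⟨k, hk⟩
    exact ((hsc k).pr q hk).1
  obtain ⟨ω', h1, h2⟩ := destroy hsc hgap hlow ω
  refine ⟨ω', fun p _ hpQ => h1 p fun k hk => hpQ ⟨k, hk⟩, fun C X₀ => ?_⟩
  obtain ⟨k, hk⟩ := exists_nat_ge (max (max (3 / 2 * X₀) (32768 / 3 * C)) 1)
  have k1 : 3 / 2 * X₀ ≤ k := (le_trans (le_max_left _ _) (le_max_left _ _)).trans hk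
  have k2 : 32768 / 3 * C ≤ k := (le_trans (le_max_right _ _) (le_max_left _ _)).trans hk
  have k3 : (1 : ℝ) ≤ k := (le_max_right _ _).trans hk
  have hP : (k : ℝ) ≤ P k := by
    have a1 := (hsc k).lo
    have a2 := hlow k
    have a3 : τ k < 16 ^ τ k := Nat.lt_pow_self (by norm_num)
    have a4 : 16 ^ τ k ≤ 16 ^ (τ k + 1) := Nat.pow_le_pow_right (by norm_num) (by omega)
    have a5 : k ≤ P k := by
      calc k ≤ τ k := by omega
        _ ≤ 16 ^ τ k := a3.le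
        _ ≤ 16 ^ (τ k + 1) := a4
        _ ≤ P k := a1
    exact_mod_cast a5
  refine ⟨2 / 3 * (P k : ℝ), by linarith, ?_⟩
  have h3 := h2 k
  rw [fe]
  refine le_trans ?_ h3
  refine mul_le_mul_of_nonneg_right ?_ (by positivity)
  nlinarith

/-- **The threshold `1/2` for the stability of the Good-Churchhouse law.** -/
theorem result :
    -- (1) stability for almost every twist under all changes on a set of exponent of convergence `< 1/2`
    (∀ (Q : Set ℕ) (s : ℝ), s < 1 / 2 → (Summable fun q : Q => ((q : ℕ) : ℝ) ^ (-s)) →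
      ∀ᵐ ω ∂coins, ∀ ω' : ℕ → Bool, SameOff Q ω ω' →
        StrongLaw (fun n => moeb n * chi ω' n) ∧ Law fun n => moeb n * chi ω' n) ∧
    -- (2) a set of exponent of convergence `1/2` destroys the law for EVERY twist
    (∃ Q : Set ℕ, (∀ q ∈ Q, q.Prime) ∧
      (∀ s : ℝ, 1 / 2 < s → Summable fun q : Q => ((q : ℕ) : ℝ) ^ (-s)) ∧
      ∀ ω : ℕ → Bool, ∃ ω' : ℕ → Bool, SameOff Q ω ω' ∧
        (∀ C X₀ : ℝ, ∃ X : ℝ, X₀ ≤ X ∧
          C * X ^ (3 / 4 : ℝ) ≤ V (fun n => moeb n * chi ω' n) X (X ^ (3 / 4 : ℝ))) ∧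
        ¬ Law fun n => moeb n * chi ω' n) ∧
    -- (3) the Moebius function is one of the twists
    (∀ n, moeb n * chi (fun _ => true) n = moeb n) := by
  refine ⟨fun Q s hs hQ => ?_, ?_, fun n => ?_⟩
  · have h1 : coins = cm := rfl
    rw [h1]
    filter_upwards [stable Q s hs hQ] with ω hω ω' hω'
    exact ⟨hω ω' hω', law_of_strong _ (hω ω' hω')⟩
  · obtain ⟨Q, hQ1, hQ2, hQ3⟩ := destroyed
    refine ⟨Q, hQ1, hQ2, fun ω => ?_⟩
    obtain ⟨ω', h1, h2⟩ := hQ3 ω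
    exact ⟨ω', h1, h2, not_law _ h2⟩
  · unfold chi
    simp

end Pool.Agent.Results.MP_0575cc_nt.SharpStability
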